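import Mathlib

/-!
An increasing `0/1`-valued set function on the power set of a countable set that is not the
difference of two bounded submodular set functions.
-/

set_option autoImplicit false

namespace Pool.Agent.Results.MP_2db6a9_co.NoBddSubmod

open Finset

/-- `f` is increasing on the members of `B`. -/
def IncreasingOn {J : Type} (B : Set (Set J)) (f : Set J → ℝ) : Prop :=
  ∀ X ∈ B, ∀ Y ∈ B, X ⊆ Y → f X ≤ f Y

/-- `f` is bounded on the members of `B`. -/
def BoundedOn {J : Type} (B : Set (Set J)) (f : Set J → ℝ) : Prop :=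
  ∃ b : ℝ, ∀ X ∈ B, |f X| ≤ b

/-- `f` is submodular on the members of `B`. -/
def SubmodularOn {J : Type} (B : Set (Set J)) (f : Set J → ℝ) : Prop :=
  ∀ X ∈ B, ∀ Y ∈ B, f (X ∩ Y) + f (X ∪ Y) ≤ f X + f Y

/-- `φ` has bounded variation on `B`: it is a difference of two increasing set functions. -/
def BVOn {J : Type} (B : Set (Set J)) (φ : Set J → ℝ) : Prop :=
  ∃ f g : Set J → ℝ, IncreasingOn B f ∧ IncreasingOn B g ∧ ∀ X ∈ B, φ X = f X - g X

/-- Concave sequences with a jump in the slope are large. -/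
lemma key {N k : ℕ} (hk : 2 ≤ k) (hN : N = 2 * k) (c : ℕ → ℝ) (W K : ℝ)
    (hconc : ∀ l, l + 2 ≤ N → c (l + 2) + c l ≤ 2 * c (l + 1))
    (hjump : c k + W + c (k - 2) ≤ 2 * c (k - 1))
    (hb : ∀ l, |c l| ≤ K) : W * (k - 1) ≤ 4 * K := by
  have hanti : ∀ j i, i ≤ j → j + 1 ≤ N → c (j + 1) - c j ≤ c (i + 1) - c i := by
    intro j
    induction j with
    | zero =>
      intro i hi _
      have : i = 0 := by omega
      subst this
      exact le_rfl
    | succ j ih =>
      intro i hi hj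
      rcases Nat.lt_or_ge i (j + 1) with h | h
      · have h1 := ih i (by omega) (by omega)
        have h2 := hconc j (by omega)
        have : j + 1 + 1 = j + 2 := rfl
        rw [this]
        linarith
      · have : i = j + 1 := by omega
        subst this
        exact le_rfl
  have h1 : (k - 1 : ℝ) * (c (k - 1) - c (k - 2)) ≤ c (k - 1) - c 0 := by
    rw [← Finset.sum_range_sub]
    have := Finset.card_nsmul_le_sum (Finset.range (k - 1)) (fun i => c (i + 1) - c i)
      (c (k - 1) - c (k - 2)) (by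
        intro i hi
        rw [Finset.mem_range] at hi
        have := hanti (k - 2) i (by omega) (by omega)
        rw [show k - 2 + 1 = k - 1 by omega] at this
        exact this)
    rw [Finset.card_range, nsmul_eq_mul, Nat.cast_sub (by omega), Nat.cast_one] at this
    exact this
  have h2 : c N - c (k - 1) ≤ (k + 1 : ℝ) * (c k - c (k - 1)) := by
    have hs : ∑ i ∈ Finset.range (k + 1), (c (k - 1 + i + 1) - c (k - 1 + i)) =
        c N - c (k - 1) := by
      have := Finset.sum_range_sub (fun i => c (k - 1 + i)) (k + 1)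
      simp only [add_zero] at this
      rw [show k - 1 + (k + 1) = N by omega] at this
      exact this
    rw [← hs]
    have := Finset.sum_le_card_nsmul (Finset.range (k + 1))
      (fun i => c (k - 1 + i + 1) - c (k - 1 + i)) (c k - c (k - 1)) (by
        intro i hi
        rw [Finset.mem_range] at hi
        have := hanti (k - 1 + i) (k - 1) (by omega) (by omega)
        rw [show k - 1 + 1 = k by omega] at this
        exact this)
    rw [Finset.card_range, nsmul_eq_mul] at this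
    push_cast at this
    exact this
  have b1 := abs_le.1 (hb (k - 1))
  have b2 := abs_le.1 (hb 0)
  have b3 := abs_le.1 (hb N)
  have hkR : (2 : ℝ) ≤ k := by exact_mod_cast hk
  have hK : 0 ≤ K := le_trans (abs_nonneg _) (hb 0)
  set D1 := c (k - 1) - c (k - 2) with hD1
  set D2 := c k - c (k - 1) with hD2
  have h3 : D2 + W ≤ D1 := by
    rw [hD1, hD2]; linarith
  have h4 : (k - 1 : ℝ) * D1 ≤ 2 * K := by linarith
  have h5 : -(2 * K) ≤ (k + 1 : ℝ) * D2 := by linarith
  have h6 : -(2 * K) ≤ (k - 1 : ℝ) * D2 := by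
    rcases le_or_gt 0 D2 with h | h
    · have : 0 ≤ (k - 1 : ℝ) * D2 := mul_nonneg (by linarith) h
      linarith
    · have : (k + 1 : ℝ) * D2 ≤ (k - 1 : ℝ) * D2 := by
        apply mul_le_mul_of_nonpos_right _ h.le
        linarith
      linarith
  have h7 : (k - 1 : ℝ) * (D2 + W) ≤ (k - 1 : ℝ) * D1 := mul_le_mul_of_nonneg_left h3 (by linarith)
  nlinarith

/-- the ground set: disjoint cyclic blocks of even sizes `2, 4, 6, ...` -/
abbrev J : Type := Σ m : ℕ, ZMod (2 * m + 2)

/-- cyclic interval of length `l` starting at `a` in block `m` -/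
def arc (m : ℕ) (a : ZMod (2 * m + 2)) (l : ℕ) : Set J :=
  (fun x => (⟨m, x⟩ : J)) '' {x | ∃ i : ℕ, i < l ∧ x = a + i}

/-- the section of `X` in block `m` -/
def sec (m : ℕ) (X : Set J) : Set (ZMod (2 * m + 2)) := {x | (⟨m, x⟩ : J) ∈ X}

open scoped Classical in
/-- the example -/
noncomputable def phi (X : Set J) : ℝ :=
  if ∃ m : ℕ, m + 1 ≤ (sec m X).ncard then 1 else 0

lemma phi_mono {X Y : Set J} (h : X ⊆ Y) : phi X ≤ phi Y := by
  unfold phi
  split_ifs with h1 h2
  · exact le_rfl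
  · exfalso
    obtain ⟨m, hm⟩ := h1
    exact h2 ⟨m, hm.trans (Set.ncard_le_ncard (fun x hx => h hx) (Set.toFinite _))⟩
  · norm_num
  · exact le_rfl

lemma sec_arc (m : ℕ) (a : ZMod (2 * m + 2)) (l : ℕ) :
    sec m (arc m a l) = {x | ∃ i : ℕ, i < l ∧ x = a + i} := by
  ext x
  constructor
  · rintro ⟨y, hy, h⟩
    have : y = x := by simpa using h
    subst this
    exact hy
  · intro hx
    exact ⟨x, hx, rfl⟩

lemma cast_inj {N i j : ℕ} (hi : i < N) (hj : j < N) (h : (i : ZMod N) = j) : i = j := by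
  rw [ZMod.natCast_eq_natCast_iff'] at h
  rwa [Nat.mod_eq_of_lt hi, Nat.mod_eq_of_lt hj] at h

lemma ncard_arc (m : ℕ) (a : ZMod (2 * m + 2)) {l : ℕ} (hl : l ≤ 2 * m + 2) :
    (sec m (arc m a l)).ncard = l := by
  rw [sec_arc]
  have : {x : ZMod (2 * m + 2) | ∃ i : ℕ, i < l ∧ x = a + i} =
      ((Finset.range l).image fun i : ℕ => a + (i : ZMod (2 * m + 2)) : Finset _) := by
    ext x
    simp only [Set.mem_ofPred_eq, Finset.coe_image, Finset.coe_range, Set.mem_image, Set.mem_Iio]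
    constructor
    · rintro ⟨i, hi, rfl⟩
      exact ⟨i, hi, rfl⟩
    · rintro ⟨i, hi, rfl⟩
      exact ⟨i, hi, rfl⟩
  rw [this, Set.ncard_coe_finset, Finset.card_image_of_injOn, Finset.card_range]
  intro i hi j hj h
  simp only [Finset.coe_range, Set.mem_Iio] at hi hj
  exact cast_inj (by omega) (by omega) (add_left_cancel h)

lemma phi_arc (m : ℕ) (a : ZMod (2 * m + 2)) {l : ℕ} (hl : l ≤ 2 * m + 2) :
    phi (arc m a l) = if m + 1 ≤ l then 1 else 0 := by
  unfold phi
  congr 1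
  apply propext
  constructor
  · rintro ⟨m', hm'⟩
    by_cases h : m' = m
    · subst h
      rwa [ncard_arc m' a hl] at hm'
    · exfalso
      have : sec m' (arc m a l) = ∅ := by
        ext x
        simp only [Set.mem_empty_iff_false, iff_false]
        rintro ⟨y, hy, hh⟩
        exact h (congrArg Sigma.fst hh).symm
      rw [this, Set.ncard_empty] at hm'
      omega
  · intro h
    exact ⟨m, by rwa [ncard_arc m a hl]⟩

lemma arc_union (m : ℕ) (a : ZMod (2 * m + 2)) (l : ℕ) :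
    arc m a (l + 1) ∪ arc m (a + 1) (l + 1) = arc m a (l + 2) := by
  unfold arc
  rw [← Set.image_union]
  congr 1
  ext x
  simp only [Set.mem_union, Set.mem_ofPred_eq]
  constructor
  · rintro (⟨i, hi, rfl⟩ | ⟨i, hi, rfl⟩)
    · exact ⟨i, by omega, rfl⟩
    · exact ⟨i + 1, by omega, by push_cast; ring⟩
  · rintro ⟨i, hi, rfl⟩
    rcases Nat.lt_or_ge i (l + 1) with h | h
    · exact Or.inl ⟨i, h, rfl⟩
    · right
      refine ⟨i - 1, by omega, ?_⟩
      obtain ⟨j, rfl⟩ : ∃ j, i = j + 1 := ⟨i - 1, by omega⟩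
      simp only [Nat.add_sub_cancel]
      push_cast
      ring

lemma arc_inter (m : ℕ) (a : ZMod (2 * m + 2)) {l : ℕ} (hl : l + 2 ≤ 2 * m + 2) :
    arc m a (l + 1) ∩ arc m (a + 1) (l + 1) = arc m (a + 1) l := by
  unfold arc
  rw [← Set.image_inter (by
    intro x y h
    simpa using h)]
  congr 1
  ext x
  simp only [Set.mem_inter_iff, Set.mem_ofPred_eq]
  constructor
  · rintro ⟨⟨i, hi, rfl⟩, ⟨j, hj, h⟩⟩
    have h1 : ((i : ℕ) : ZMod (2 * m + 2)) = ((j + 1 : ℕ) : ZMod (2 * m + 2)) := by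
      push_cast
      have : a + (i : ZMod (2 * m + 2)) = a + (j + 1) := by rw [h]; ring
      exact add_left_cancel this
    have h2 := cast_inj (by omega) (by omega) h1
    subst h2
    exact ⟨j, by omega, h⟩
  · rintro ⟨i, hi, rfl⟩
    refine ⟨⟨i + 1, by omega, by push_cast; ring⟩, ⟨i, by omega, rfl⟩⟩

/-- the sum of `ψ` over the cyclic intervals of length `l` -/
noncomputable def tot (ψ : Set J → ℝ) (m l : ℕ) : ℝ :=
  ∑ a : ZMod (2 * m + 2), ψ (arc m a l)

lemma tot_concave {ψ : Set J → ℝ} (h : SubmodularOn Set.univ ψ) (m : ℕ) {l : ℕ}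
    (hl : l + 2 ≤ 2 * m + 2) : tot ψ m (l + 2) + tot ψ m l ≤ 2 * tot ψ m (l + 1) := by
  have shift : ∀ l, tot ψ m l = ∑ a : ZMod (2 * m + 2), ψ (arc m (a + 1) l) := by
    intro l
    exact (Equiv.sum_comp (Equiv.addRight (1 : ZMod (2 * m + 2))) (fun a => ψ (arc m a l))).symm
  have h1 : 2 * tot ψ m (l + 1) = ∑ a : ZMod (2 * m + 2),
      (ψ (arc m a (l + 1)) + ψ (arc m (a + 1) (l + 1))) := by
    rw [Finset.sum_add_distrib, ← shift]
    unfold tot
    ring
  rw [h1, shift l]
  unfold tot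
  rw [← Finset.sum_add_distrib]
  apply Finset.sum_le_sum
  intro a _
  have := h (arc m a (l + 1)) (Set.mem_univ _) (arc m (a + 1) (l + 1)) (Set.mem_univ _)
  rw [arc_union, arc_inter m a hl] at this
  linarith

lemma tot_bdd {ψ : Set J → ℝ} {b : ℝ} (h : ∀ X, |ψ X| ≤ b) (m l : ℕ) :
    |tot ψ m l| ≤ (2 * m + 2 : ℕ) * b := by
  unfold tot
  calc |∑ a : ZMod (2 * m + 2), ψ (arc m a l)|
      ≤ ∑ a : ZMod (2 * m + 2), |ψ (arc m a l)| := Finset.abs_sum_le_sum_abs _ _
    _ ≤ ∑ _a : ZMod (2 * m + 2), b := Finset.sum_le_sum fun a _ => h _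
    _ = (2 * m + 2 : ℕ) * b := by
      rw [Finset.sum_const, nsmul_eq_mul, Finset.card_univ, ZMod.card]

lemma no_decomposition (ψ₁ ψ₂ : Set J → ℝ) (h₁ : SubmodularOn Set.univ ψ₁)
    (h₂ : SubmodularOn Set.univ ψ₂) (hb : BoundedOn Set.univ ψ₂)
    (h : ∀ X, phi X = ψ₁ X - ψ₂ X) : False := by
  obtain ⟨b, hb⟩ := hb
  have hb' : ∀ X, |ψ₂ X| ≤ b := fun X => hb X (Set.mem_univ _)
  obtain ⟨m, hm⟩ := exists_nat_gt (4 * b)
  have hb0 : 0 ≤ b := le_trans (abs_nonneg _) (hb' ∅)
  have hm1 : 1 ≤ m := by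
    rcases Nat.eq_zero_or_pos m with rfl | h
    · exfalso
      simp only [Nat.cast_zero] at hm
      linarith
    · exact h
  have hdiff : ∀ l ≤ 2 * m + 2, tot ψ₁ m l = tot ψ₂ m l +
      (if m + 1 ≤ l then ((2 * m + 2 : ℕ) : ℝ) else 0) := by
    intro l hl
    have : tot ψ₁ m l - tot ψ₂ m l = ∑ a : ZMod (2 * m + 2), phi (arc m a l) := by
      unfold tot
      rw [← Finset.sum_sub_distrib]
      exact Finset.sum_congr rfl fun a _ => (h _).symm
    rw [Finset.sum_congr rfl fun a _ => phi_arc m a hl, Finset.sum_const, nsmul_eq_mul,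
      Finset.card_univ, ZMod.card] at this
    split_ifs with hml
    · rw [if_pos hml] at this
      linarith
    · rw [if_neg hml] at this
      linarith
  have hj := tot_concave h₁ m (l := m - 1) (by omega)
  rw [hdiff _ (by omega), hdiff _ (by omega), hdiff _ (by omega), if_pos (by omega),
    if_neg (by omega), if_neg (by omega)] at hj
  have hk := key (N := 2 * m + 2) (k := m + 1) (by omega) (by ring) (tot ψ₂ m)
    ((2 * m + 2 : ℕ) : ℝ) ((2 * m + 2 : ℕ) * b) (fun l hl => tot_concave h₂ m hl) (by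
      rw [show m - 1 + 2 = m + 1 by omega, show m - 1 + 1 = m by omega] at hj
      rw [show m + 1 - 2 = m - 1 by omega, show m + 1 - 1 = m by omega]
      linarith) (tot_bdd hb' m)
  have hp : (0 : ℝ) < ((2 * m + 2 : ℕ) : ℝ) := by positivity
  have h3 : ((m : ℝ)) ≤ 4 * b := by
    have : ((2 * m + 2 : ℕ) : ℝ) * (m : ℝ) ≤ ((2 * m + 2 : ℕ) : ℝ) * (4 * b) := by
      push_cast at hk ⊢
      linarith
    exact le_of_mul_le_mul_left this hp
  linarith

/-- Not every set function of bounded variation on a set algebra is the difference of two bounded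
submodular set functions. -/
theorem result :
    ¬ ∀ (J : Type) (B : Set (Set J)), MeasureTheory.IsSetAlgebra B →
      ∀ φ : Set J → ℝ, BVOn B φ →
        ∃ ψ₁ ψ₂ : Set J → ℝ, (BoundedOn B ψ₁ ∧ SubmodularOn B ψ₁) ∧
          (BoundedOn B ψ₂ ∧ SubmodularOn B ψ₂) ∧ ∀ X ∈ B, φ X = ψ₁ X - ψ₂ X := by
  intro hall
  obtain ⟨ψ₁, ψ₂, ⟨-, h₁⟩, ⟨hb, h₂⟩, h⟩ := hall J Set.univ
    ⟨Set.mem_univ _, fun _ _ => Set.mem_univ _, fun _ _ _ _ => Set.mem_univ _⟩ phi
    ⟨phi, fun _ => 0, fun X _ Y _ hXY => phi_mono hXY, fun _ _ _ _ _ => le_rfl,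
      fun X _ => by simp⟩
  exact no_decomposition ψ₁ ψ₂ h₁ h₂ hb fun X => h X (Set.mem_univ _)

end Pool.Agent.Results.MP_2db6a9_co.NoBddSubmod
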